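import Pool.Agent.Helper33.EX.AvgCore
import Pool.Agent.Helper84.EX.Bounds

/-!
Project EX, module EX-3: averages of `EE` and `TT` over `θ` (final statements).
-/

set_option autoImplicit false

namespace Pool.Agent.Helper33.EX

open Pool.Agent.Helper47.EX Finset MeasureTheory

theorem aInt : AInt := fun p hp j => Pool.Agent.Helper84.EX.aa_int p hp j

theorem bInt : BInt := fun q hq k => Pool.Agent.Helper84.EX.bb_int q hq k

theorem avg_EE : ∃ C : ℝ, 1 ≤ C ∧ ∀ (p q : ℕ → ℝ), Par p → Par q → ∀ m w : ℕ,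
    2 ^ m ≤ 3 ^ (w + 1) → ∫ θ in (1 / 3 : ℝ)..1, EE p q m w θ ≤ C := avg_EE_core aInt bInt

theorem avg_TT : ∃ C : ℝ, 1 ≤ C ∧ ∀ (p q : ℕ → ℝ), Par p → Par q → ∀ m w j L : ℕ,
    2 ^ m ≤ 3 ^ (w + 1) → j ≤ m → 1 ≤ L →
      ∫ θ in (1 / 3 : ℝ)..1, TT p q m w j L θ ≤ C * (0.993 ^ j + L * 0.993 ^ m) :=
  avg_TT_core aInt bInt

end Pool.Agent.Helper33.EX
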