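import Pool.Agent.Helper33.EX.Fou

/-!
Project EX: averages of `EE` and `TT` over `θ`, from the `L¹` bounds of `aa` and `bb`.
-/

set_option autoImplicit false

namespace Pool.Agent.Helper33.EX

open Pool.Agent.Helper47.EX Finset MeasureTheory

/-- The average of `bb q w (θ ξ)` over `θ ∈ [1/3, 1]`. -/
noncomputable def SS (q : ℕ → ℝ) (w : ℕ) (ξ : ℝ) : ℝ :=
  ∫ θ in (1 / 3 : ℝ)..1, bb q w (θ * ξ)

theorem SS_continuous (q : ℕ → ℝ) (w : ℕ) : Continuous (SS q w) := by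
  unfold SS
  refine intervalIntegral.continuous_parametric_intervalIntegral_of_continuous' ?_ _ _
  have := bb_continuous q w
  exact this.comp (by fun_prop)

theorem SS_nonneg (q : ℕ → ℝ) (hq : Par q) (w : ℕ) (ξ : ℝ) : 0 ≤ SS q w ξ :=
  intervalIntegral.integral_nonneg (by norm_num) fun θ _ => bb_nonneg q hq w _

theorem SS_le_one (q : ℕ → ℝ) (hq : Par q) (w : ℕ) (ξ : ℝ) : SS q w ξ ≤ 1 := by
  have h : SS q w ξ ≤ ∫ _θ in (1 / 3 : ℝ)..1, (1 : ℝ) := by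
    refine intervalIntegral.integral_mono_on (by norm_num) ?_ ?_ fun θ _ => bb_le_one q hq w _
    · exact ((bb_continuous q w).comp (by fun_prop : Continuous fun θ : ℝ => θ * ξ)).intervalIntegrable
        _ _
    · exact intervalIntegrable_const
  refine h.trans ?_
  rw [intervalIntegral.integral_const]
  norm_num

/-- The `L¹` bounds of EX-2b. -/
def AInt : Prop := ∀ p : ℕ → ℝ, Par p → ∀ j : ℕ, ∫ ξ in (0 : ℝ)..1, aa p j ξ ≤ 0.473 ^ (j / 2)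

/-- The `L¹` bounds of EX-2b. -/
def BInt : Prop := ∀ q : ℕ → ℝ, Par q → ∀ k : ℕ, ∫ ξ in (0 : ℝ)..1, bb q k ξ ≤ 0.5903 ^ k

theorem SS_le (hB : BInt) (q : ℕ → ℝ) (hq : Par q) (l k : ℕ) (ξ : ℝ)
    (hX : 1 / 6 ≤ (3 : ℝ) ^ l * ξ) : SS q (l + k) ξ ≤ 7 * 0.5903 ^ k := by
  set q' : ℕ → ℝ := fun i => q (l + i) with hq'
  have hPq' : Par q' := Par_shift q hq l
  set X : ℝ := (3 : ℝ) ^ l * ξ with hXdef
  have hX0 : 0 < X := by linarith
  have hc := bb_continuous q' k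
  have h1 : SS q (l + k) ξ ≤ ∫ θ in (0 : ℝ)..1, bb q' k (X * θ) := by
    have e1 : SS q (l + k) ξ ≤ ∫ θ in (1 / 3 : ℝ)..1, bb q' k (X * θ) := by
      refine intervalIntegral.integral_mono_on (by norm_num) ?_ ?_ fun θ _ => ?_
      · exact ((bb_continuous q (l + k)).comp
          (by fun_prop : Continuous fun θ : ℝ => θ * ξ)).intervalIntegrable _ _
      · exact (hc.comp (by fun_prop : Continuous fun θ : ℝ => X * θ)).intervalIntegrable _ _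
      · have := bb_le_tail q hq l k (θ * ξ)
        rw [show (3 : ℝ) ^ l * (θ * ξ) = X * θ by rw [hXdef]; ring] at this
        exact this
    refine e1.trans ?_
    refine intervalIntegral.integral_mono_interval (by norm_num) (by norm_num) le_rfl ?_ ?_
    · exact Filter.Eventually.of_forall fun θ => bb_nonneg q' hPq' k _
    · exact (hc.comp (by fun_prop : Continuous fun θ : ℝ => X * θ)).intervalIntegrable _ _
  have h2 : ∫ θ in (0 : ℝ)..1, bb q' k (X * θ) = X⁻¹ * ∫ y in (0 : ℝ)..X, bb q' k y := by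
    rw [intervalIntegral.integral_comp_mul_left (fun y => bb q' k y) hX0.ne']
    simp
  have h3 : ∫ y in (0 : ℝ)..X, bb q' k y ≤ (X + 1) * 0.5903 ^ k := by
    have e1 : ∫ y in (0 : ℝ)..X, bb q' k y ≤ ∫ y in (0 : ℝ)..(⌈X⌉₊ : ℕ), bb q' k y := by
      refine intervalIntegral.integral_mono_interval le_rfl hX0.le (Nat.le_ceil X) ?_ ?_
      · exact Filter.Eventually.of_forall fun θ => bb_nonneg q' hPq' k _
      · exact hc.intervalIntegrable _ _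
    rw [int_zero_nat _ hc (bb_add_one q' k)] at e1
    refine e1.trans ?_
    have e2 := hB q' hPq' k
    have e3 : ((⌈X⌉₊ : ℕ) : ℝ) ≤ X + 1 := (Nat.ceil_lt_add_one hX0.le).le
    have e4 : 0 ≤ ∫ y in (0 : ℝ)..1, bb q' k y :=
      intervalIntegral.integral_nonneg (by norm_num) fun θ _ => bb_nonneg q' hPq' k _
    calc ((⌈X⌉₊ : ℕ) : ℝ) * ∫ y in (0 : ℝ)..1, bb q' k y
        ≤ (X + 1) * ∫ y in (0 : ℝ)..1, bb q' k y := mul_le_mul_of_nonneg_right e3 e4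
      _ ≤ (X + 1) * 0.5903 ^ k := mul_le_mul_of_nonneg_left e2 (by linarith)
  rw [h2] at h1
  refine h1.trans ?_
  have h4 : X⁻¹ * ∫ y in (0 : ℝ)..X, bb q' k y ≤ X⁻¹ * ((X + 1) * 0.5903 ^ k) :=
    mul_le_mul_of_nonneg_left h3 (by positivity)
  refine h4.trans ?_
  have h5 : X⁻¹ * (X + 1) ≤ 7 := by
    rw [inv_mul_le_iff₀ hX0]
    linarith
  have h6 : (0 : ℝ) ≤ 0.5903 ^ k := by positivity
  nlinarith

/-- The exponent arithmetic. -/
theorem expo (i k : ℕ) (h : 31 * i ≤ 50 * (k + 1)) :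
    (2 : ℝ) ^ i * 0.473 ^ (i / 2) * 0.5903 ^ k ≤ 2.5 * 0.993 ^ i := by
  have hpos : (0 : ℝ) ≤ (2 : ℝ) ^ i * 0.473 ^ (i / 2) * 0.5903 ^ k := by positivity
  refine le_of_pow_le_pow_left₀ (n := 100) (by norm_num) (by positivity) ?_
  have h1 : ((0.473 : ℝ) ^ (i / 2)) ^ 100 * 0.473 ^ 50 ≤ (0.473 ^ 50) ^ i := by
    rw [← pow_mul, ← pow_add, ← pow_mul]
    exact pow_le_pow_of_le_one (by norm_num) (by norm_num) (by omega)
  have h2 : ((0.5903 : ℝ) ^ k) ^ 100 * 0.5903 ^ 100 ≤ (0.5903 ^ 62) ^ i := by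
    rw [← pow_mul, ← pow_add, ← pow_mul]
    exact pow_le_pow_of_le_one (by norm_num) (by norm_num) (by omega)
  have h3 : ((2 : ℝ) ^ 100 * 0.473 ^ 50 * 0.5903 ^ 62) ^ i ≤ (0.993 ^ 100) ^ i := by
    refine pow_le_pow_left₀ (by positivity) ?_ i
    norm_num
  have h4 : (1 : ℝ) ≤ 2.5 ^ 100 * (0.473 ^ 50 * 0.5903 ^ 100) := by norm_num
  have h5 : ((2 : ℝ) ^ i * 0.473 ^ (i / 2) * 0.5903 ^ k) ^ 100 * (0.473 ^ 50 * 0.5903 ^ 100)
      ≤ (0.993 ^ 100) ^ i := by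
    calc ((2 : ℝ) ^ i * 0.473 ^ (i / 2) * 0.5903 ^ k) ^ 100 * (0.473 ^ 50 * 0.5903 ^ 100)
        = (2 ^ i) ^ 100 * (((0.473 : ℝ) ^ (i / 2)) ^ 100 * 0.473 ^ 50)
          * (((0.5903 : ℝ) ^ k) ^ 100 * 0.5903 ^ 100) := by
          rw [mul_pow, mul_pow]; ring
      _ ≤ (2 ^ i) ^ 100 * ((0.473 ^ 50) ^ i) * ((0.5903 ^ 62) ^ i) := by gcongr
      _ = ((2 : ℝ) ^ 100 * 0.473 ^ 50 * 0.5903 ^ 62) ^ i := by
          rw [mul_pow, mul_pow, ← pow_mul, ← pow_mul 2 100, Nat.mul_comm i 100]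
      _ ≤ _ := h3
  calc ((2 : ℝ) ^ i * 0.473 ^ (i / 2) * 0.5903 ^ k) ^ 100
      ≤ ((2 : ℝ) ^ i * 0.473 ^ (i / 2) * 0.5903 ^ k) ^ 100
        * (2.5 ^ 100 * (0.473 ^ 50 * 0.5903 ^ 100)) :=
        le_mul_of_one_le_right (by positivity) h4
    _ = 2.5 ^ 100 * (((2 : ℝ) ^ i * 0.473 ^ (i / 2) * 0.5903 ^ k) ^ 100
        * (0.473 ^ 50 * 0.5903 ^ 100)) := by ring
    _ ≤ 2.5 ^ 100 * (0.993 ^ 100) ^ i := mul_le_mul_of_nonneg_left h5 (by positivity)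
    _ = (2.5 * 0.993 ^ i) ^ 100 := by
        rw [mul_pow, ← pow_mul, ← pow_mul, Nat.mul_comm 100 i]

/-- The integral of `aa` over a dyadic shell. -/
theorem shell_aa (hA : AInt) (p : ℕ → ℝ) (hp : Par p) (a i : ℕ) :
    ∫ ξ in (2 ^ i / 2 ^ (a + (i + 1)) : ℝ)..(2 ^ (i + 1) / 2 ^ (a + (i + 1))),
      aa p (a + (i + 1)) ξ ≤ (2 ^ a)⁻¹ * 0.473 ^ ((i + 1) / 2) := by
  set p' : ℕ → ℝ := fun k => p (a + k) with hp'
  have hPp' : Par p' := Par_shift p hp a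
  have hc := aa_continuous p' (i + 1)
  have h2a : (0 : ℝ) < 2 ^ a := by positivity
  have e1 : (2 ^ i / 2 ^ (a + (i + 1)) : ℝ) = (2 ^ a)⁻¹ * (1 / 2) := by
    rw [pow_add, pow_succ]; field_simp
  have e2 : (2 ^ (i + 1) / 2 ^ (a + (i + 1)) : ℝ) = (2 ^ a)⁻¹ := by
    rw [pow_add 2 a (i + 1)]; field_simp
  rw [e1, e2]
  have hle : (2 ^ a : ℝ)⁻¹ * (1 / 2) ≤ (2 ^ a)⁻¹ := by
    have : (0 : ℝ) < (2 ^ a)⁻¹ := by positivity
    linarith
  have h1 : ∫ ξ in ((2 ^ a : ℝ)⁻¹ * (1 / 2))..((2 ^ a)⁻¹), aa p (a + (i + 1)) ξ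
      ≤ ∫ ξ in ((2 ^ a : ℝ)⁻¹ * (1 / 2))..((2 ^ a)⁻¹), aa p' (i + 1) (2 ^ a * ξ) := by
    refine intervalIntegral.integral_mono_on hle ?_ ?_ fun ξ _ => aa_le_tail p hp a (i + 1) ξ
    · exact (aa_continuous p _).intervalIntegrable _ _
    · exact (hc.comp (by fun_prop : Continuous fun ξ : ℝ => 2 ^ a * ξ)).intervalIntegrable _ _
  refine h1.trans ?_
  rw [intervalIntegral.integral_comp_mul_left (fun y => aa p' (i + 1) y) h2a.ne']
  rw [← mul_assoc, mul_inv_cancel₀ h2a.ne', one_mul, smul_eq_mul]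
  refine mul_le_mul_of_nonneg_left ?_ (by positivity)
  refine le_trans ?_ (hA p' hPp' (i + 1))
  refine intervalIntegral.integral_mono_interval (by norm_num) (by norm_num) le_rfl ?_ ?_
  · exact Filter.Eventually.of_forall fun θ => aa_nonneg p' hPp' _ _
  · exact hc.intervalIntegrable _ _

/-- The contribution of a dyadic shell. -/
theorem shell (hA : AInt) (hB : BInt) (p q : ℕ → ℝ) (hp : Par p) (hq : Par q) (m w i : ℕ)
    (hmw : 2 ^ m ≤ 3 ^ (w + 1)) (hi : i < m) (ω : ℝ → ℝ) (hω : Continuous ω) (Ω : ℝ)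
    (hΩ0 : 0 ≤ Ω)
    (hΩ : ∀ ξ ∈ Set.Icc (2 ^ i / 2 ^ m : ℝ) (2 ^ (i + 1) / 2 ^ m), ω ξ ≤ Ω) :
    2 ^ m * ∫ ξ in (2 ^ i / 2 ^ m : ℝ)..(2 ^ (i + 1) / 2 ^ m), ω ξ * (aa p m ξ * SS q w ξ)
      ≤ 17.5 * (Ω * 0.993 ^ (i + 1)) := by
  obtain ⟨a, rfl⟩ : ∃ a, m = a + (i + 1) := ⟨m - (i + 1), by omega⟩
  set l := Nat.log 3 (2 ^ a) with hl
  have hl1 : 3 ^ l ≤ 2 ^ a := Nat.pow_log_le_self 3 (by positivity)
  have hl2 : 2 ^ a < 3 ^ (l + 1) := Nat.lt_pow_succ_log_self (by norm_num) _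
  have hlw : l ≤ w := by
    have h1 : 3 ^ l < 3 ^ (w + 1) := by
      calc 3 ^ l ≤ 2 ^ a := hl1
        _ < 2 ^ (a + (i + 1)) := Nat.pow_lt_pow_right (by norm_num) (by omega)
        _ ≤ 3 ^ (w + 1) := hmw
    have := (Nat.pow_lt_pow_iff_right (by norm_num : 1 < 3)).1 h1
    omega
  obtain ⟨k, rfl⟩ : ∃ k, w = l + k := ⟨w - l, by omega⟩
  have hk : 31 * (i + 1) ≤ 50 * (k + 1) := by
    have h1 : 2 ^ (i + 1) ≤ 3 ^ (k + 1) := by
      have h2 : 2 ^ a * 2 ^ (i + 1) ≤ 2 ^ a * 3 ^ (k + 1) := by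
        calc 2 ^ a * 2 ^ (i + 1) = 2 ^ (a + (i + 1)) := (pow_add _ _ _).symm
          _ ≤ 3 ^ (l + k + 1) := hmw
          _ = 3 ^ l * 3 ^ (k + 1) := by rw [← pow_add, add_assoc]
          _ ≤ 2 ^ a * 3 ^ (k + 1) := Nat.mul_le_mul_right _ hl1
      exact Nat.le_of_mul_le_mul_left h2 (by positivity)
    have h2 : 3 ^ (31 * (i + 1)) ≤ 3 ^ (50 * (k + 1)) := by
      calc 3 ^ (31 * (i + 1)) = (3 ^ 31) ^ (i + 1) := pow_mul _ _ _
        _ ≤ (2 ^ 50) ^ (i + 1) := Nat.pow_le_pow_left (by norm_num) _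
        _ = (2 ^ (i + 1)) ^ 50 := by rw [← pow_mul, ← pow_mul, Nat.mul_comm]
        _ ≤ (3 ^ (k + 1)) ^ 50 := Nat.pow_le_pow_left h1 _
        _ = 3 ^ (50 * (k + 1)) := by rw [← pow_mul, Nat.mul_comm]
    exact (Nat.pow_le_pow_iff_right (by norm_num : 1 < 3)).1 h2
  set m := a + (i + 1) with hm
  have hle : (2 ^ i / 2 ^ m : ℝ) ≤ 2 ^ (i + 1) / 2 ^ m := by
    gcongr
    · norm_num
    · omega
  have hci : (2 ^ i / 2 ^ m : ℝ) = (2 ^ a)⁻¹ * (1 / 2) := by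
    rw [hm, pow_add, pow_succ]; field_simp
  have hS : ∀ ξ ∈ Set.Icc (2 ^ i / 2 ^ m : ℝ) (2 ^ (i + 1) / 2 ^ m),
      SS q (l + k) ξ ≤ 7 * 0.5903 ^ k := by
    intro ξ hξ
    refine SS_le hB q hq l k ξ ?_
    have h1 : (2 ^ a : ℝ) < 3 ^ l * 3 := by
      have : (2 ^ a : ℕ) < 3 ^ l * 3 := by rw [← pow_succ]; exact hl2
      exact_mod_cast this
    have h2 : (2 ^ a : ℝ)⁻¹ * (1 / 2) ≤ ξ := hci ▸ hξ.1
    calc (1 / 6 : ℝ) = 2 ^ a / 3 * ((2 ^ a)⁻¹ * (1 / 2)) := by field_simp; norm_num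
      _ ≤ 3 ^ l * ((2 ^ a)⁻¹ * (1 / 2)) := by gcongr; linarith
      _ ≤ 3 ^ l * ξ := by gcongr
  have hac := aa_continuous p m
  have hSc := SS_continuous q (l + k)
  have h1 : ∫ ξ in (2 ^ i / 2 ^ m : ℝ)..(2 ^ (i + 1) / 2 ^ m), ω ξ * (aa p m ξ * SS q (l + k) ξ)
      ≤ ∫ ξ in (2 ^ i / 2 ^ m : ℝ)..(2 ^ (i + 1) / 2 ^ m), (Ω * (7 * 0.5903 ^ k)) * aa p m ξ := by
    refine intervalIntegral.integral_mono_on hle ?_ ?_ fun ξ hξ => ?_
    · exact (hω.mul (hac.mul hSc)).intervalIntegrable _ _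
    · exact (continuous_const.mul hac).intervalIntegrable _ _
    · have ha0 := aa_nonneg p hp m ξ
      have hs0 := SS_nonneg q hq (l + k) ξ
      calc ω ξ * (aa p m ξ * SS q (l + k) ξ) ≤ Ω * (aa p m ξ * SS q (l + k) ξ) :=
            mul_le_mul_of_nonneg_right (hΩ ξ hξ) (by positivity)
        _ ≤ Ω * (aa p m ξ * (7 * 0.5903 ^ k)) := by
            refine mul_le_mul_of_nonneg_left ?_ hΩ0
            exact mul_le_mul_of_nonneg_left (hS ξ hξ) ha0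
        _ = _ := by ring
  rw [intervalIntegral.integral_const_mul] at h1
  have h2 := shell_aa hA p hp a i
  rw [← hm] at h2
  have h3 := expo (i + 1) k hk
  calc 2 ^ m * ∫ ξ in (2 ^ i / 2 ^ m : ℝ)..(2 ^ (i + 1) / 2 ^ m), ω ξ * (aa p m ξ * SS q (l + k) ξ)
      ≤ 2 ^ m * ((Ω * (7 * 0.5903 ^ k)) * ((2 ^ a)⁻¹ * 0.473 ^ ((i + 1) / 2))) := by
        refine mul_le_mul_of_nonneg_left (h1.trans ?_) (by positivity)
        exact mul_le_mul_of_nonneg_left h2 (by positivity)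
    _ = 7 * Ω * (2 ^ (i + 1) * 0.473 ^ ((i + 1) / 2) * 0.5903 ^ k) := by
        rw [hm, pow_add]; field_simp
    _ ≤ 7 * Ω * (2.5 * 0.993 ^ (i + 1)) := mul_le_mul_of_nonneg_left h3 (by positivity)
    _ = 17.5 * (Ω * 0.993 ^ (i + 1)) := by ring

/-- All dyadic shells. -/
theorem shells (hA : AInt) (hB : BInt) (p q : ℕ → ℝ) (hp : Par p) (hq : Par q) (m w : ℕ)
    (hmw : 2 ^ m ≤ 3 ^ (w + 1)) (ω : ℝ → ℝ) (hω : Continuous ω)
    (Ω : ℕ → ℝ) (hΩ0 : ∀ i, 0 ≤ Ω i)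
    (hΩ : ∀ i ≤ m, ∀ ξ : ℝ, 0 ≤ ξ → ξ ≤ 2 ^ i / 2 ^ m → ω ξ ≤ Ω i) :
    2 ^ m * ∫ ξ in (0 : ℝ)..1, ω ξ * (aa p m ξ * SS q w ξ)
      ≤ Ω 0 + 17.5 * ∑ i ∈ range m, Ω (i + 1) * 0.993 ^ (i + 1) := by
  have hc : Continuous fun ξ => ω ξ * (aa p m ξ * SS q w ξ) :=
    hω.mul ((aa_continuous p m).mul (SS_continuous q w))
  have h2m : (0 : ℝ) < 2 ^ m := by positivity
  have h1 : ∫ ξ in (0 : ℝ)..1, ω ξ * (aa p m ξ * SS q w ξ)
      = (∫ ξ in (0 : ℝ)..(2 ^ 0 / 2 ^ m), ω ξ * (aa p m ξ * SS q w ξ))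
        + ∑ i ∈ range m, ∫ ξ in (2 ^ i / 2 ^ m : ℝ)..(2 ^ (i + 1) / 2 ^ m),
          ω ξ * (aa p m ξ * SS q w ξ) := by
    rw [intervalIntegral.sum_integral_adjacent_intervals
      (a := fun i : ℕ => (2 ^ i / 2 ^ m : ℝ)) (fun k _ => hc.intervalIntegrable _ _)]
    rw [intervalIntegral.integral_add_adjacent_intervals (hc.intervalIntegrable _ _)
      (hc.intervalIntegrable _ _)]
    rw [div_self h2m.ne']
  rw [h1, mul_add, mul_sum]
  have h2 : 2 ^ m * (∫ ξ in (0 : ℝ)..(2 ^ 0 / 2 ^ m), ω ξ * (aa p m ξ * SS q w ξ)) ≤ Ω 0 := by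
    have e1 : ∫ ξ in (0 : ℝ)..(2 ^ 0 / 2 ^ m), ω ξ * (aa p m ξ * SS q w ξ)
        ≤ ∫ _ξ in (0 : ℝ)..(2 ^ 0 / 2 ^ m), Ω 0 := by
      refine intervalIntegral.integral_mono_on (by positivity) ?_ ?_ fun ξ hξ => ?_
      · exact hc.intervalIntegrable _ _
      · exact intervalIntegrable_const
      · have ha0 := aa_nonneg p hp m ξ
        have ha1 := aa_le_one p hp m ξ
        have hs0 := SS_nonneg q hq w ξ
        have hs1 := SS_le_one q hq w ξ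
        have hprod : aa p m ξ * SS q w ξ ≤ 1 := mul_le_one₀ ha1 hs0 hs1
        calc ω ξ * (aa p m ξ * SS q w ξ) ≤ Ω 0 * (aa p m ξ * SS q w ξ) :=
              mul_le_mul_of_nonneg_right (hΩ 0 (Nat.zero_le _) ξ hξ.1 hξ.2) (by positivity)
          _ ≤ Ω 0 * 1 := mul_le_mul_of_nonneg_left hprod (hΩ0 0)
          _ = Ω 0 := mul_one _
    rw [intervalIntegral.integral_const, smul_eq_mul] at e1
    calc _ ≤ 2 ^ m * ((2 ^ 0 / 2 ^ m - 0) * Ω 0) := mul_le_mul_of_nonneg_left e1 h2m.le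
      _ = Ω 0 := by field_simp; norm_num
  have h3 : ∑ i ∈ range m, 2 ^ m * ∫ ξ in (2 ^ i / 2 ^ m : ℝ)..(2 ^ (i + 1) / 2 ^ m),
      ω ξ * (aa p m ξ * SS q w ξ) ≤ 17.5 * ∑ i ∈ range m, Ω (i + 1) * 0.993 ^ (i + 1) := by
    rw [mul_sum]
    refine sum_le_sum fun i hi => ?_
    have him : i < m := mem_range.1 hi
    refine shell hA hB p q hp hq m w i hmw him ω hω (Ω (i + 1)) (hΩ0 _) fun ξ hξ => ?_
    refine hΩ (i + 1) (by omega) ξ (le_trans (by positivity) hξ.1) hξ.2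
  linarith

/-- The outer range. -/
theorem outer (hA : AInt) (hB : BInt) (p q : ℕ → ℝ) (hp : Par p) (hq : Par q) (m w L : ℕ)
    (hmw : 2 ^ m ≤ 3 ^ (w + 1)) (hL : 1 ≤ L) (ω : ℝ → ℝ) (hω : Continuous ω)
    (hΩ : ∀ ξ : ℝ, ω ξ ≤ 1) :
    2 ^ m * ∫ ξ in (1 : ℝ)..L, ω ξ * (aa p m ξ * SS q w ξ) ≤ 17.5 * (L * 0.993 ^ m) := by
  have hk : 31 * m ≤ 50 * (w + 1) := by
    have h2 : 3 ^ (31 * m) ≤ 3 ^ (50 * (w + 1)) := by
      calc 3 ^ (31 * m) = (3 ^ 31) ^ m := pow_mul _ _ _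
        _ ≤ (2 ^ 50) ^ m := Nat.pow_le_pow_left (by norm_num) _
        _ = (2 ^ m) ^ 50 := by rw [← pow_mul, ← pow_mul, Nat.mul_comm]
        _ ≤ (3 ^ (w + 1)) ^ 50 := Nat.pow_le_pow_left hmw _
        _ = 3 ^ (50 * (w + 1)) := by rw [← pow_mul, Nat.mul_comm]
    exact (Nat.pow_le_pow_iff_right (by norm_num : 1 < 3)).1 h2
  have hL' : (1 : ℝ) ≤ L := by exact_mod_cast hL
  have hac := aa_continuous p m
  have hSc := SS_continuous q w
  have h1 : ∫ ξ in (1 : ℝ)..L, ω ξ * (aa p m ξ * SS q w ξ)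
      ≤ ∫ ξ in (1 : ℝ)..L, (7 * 0.5903 ^ w) * aa p m ξ := by
    refine intervalIntegral.integral_mono_on hL' ?_ ?_ fun ξ hξ => ?_
    · exact (hω.mul (hac.mul hSc)).intervalIntegrable _ _
    · exact (continuous_const.mul hac).intervalIntegrable _ _
    · have ha0 := aa_nonneg p hp m ξ
      have hs0 := SS_nonneg q hq w ξ
      have hS : SS q w ξ ≤ 7 * 0.5903 ^ w := by
        have := SS_le hB q hq 0 w ξ (by rw [pow_zero, one_mul]; linarith [hξ.1])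
        rwa [Nat.zero_add] at this
      calc ω ξ * (aa p m ξ * SS q w ξ) ≤ 1 * (aa p m ξ * SS q w ξ) :=
            mul_le_mul_of_nonneg_right (hΩ ξ) (by positivity)
        _ ≤ 1 * (aa p m ξ * (7 * 0.5903 ^ w)) := by
            refine mul_le_mul_of_nonneg_left ?_ zero_le_one
            exact mul_le_mul_of_nonneg_left hS ha0
        _ = _ := by ring
  rw [intervalIntegral.integral_const_mul] at h1
  have h2 : ∫ ξ in (1 : ℝ)..L, aa p m ξ ≤ L * 0.473 ^ (m / 2) := by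
    have e1 : ∫ ξ in (1 : ℝ)..L, aa p m ξ ≤ ∫ ξ in (0 : ℝ)..L, aa p m ξ := by
      refine intervalIntegral.integral_mono_interval (by norm_num) hL' le_rfl ?_ ?_
      · exact Filter.Eventually.of_forall fun θ => aa_nonneg p hp _ _
      · exact hac.intervalIntegrable _ _
    rw [int_zero_nat _ hac (aa_add_one p m)] at e1
    exact e1.trans (mul_le_mul_of_nonneg_left (hA p hp m) (by positivity))
  have h3 := expo m w hk
  calc 2 ^ m * ∫ ξ in (1 : ℝ)..L, ω ξ * (aa p m ξ * SS q w ξ)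
      ≤ 2 ^ m * ((7 * 0.5903 ^ w) * (L * 0.473 ^ (m / 2))) := by
        refine mul_le_mul_of_nonneg_left (h1.trans ?_) (by positivity)
        exact mul_le_mul_of_nonneg_left h2 (by positivity)
    _ = 7 * L * (2 ^ m * 0.473 ^ (m / 2) * 0.5903 ^ w) := by ring
    _ ≤ 7 * L * (2.5 * 0.993 ^ m) := mul_le_mul_of_nonneg_left h3 (by positivity)
    _ = 17.5 * (L * 0.993 ^ m) := by ring

/-- Fubini and evenness. -/
theorem swap (p q : ℕ → ℝ) (m w : ℕ) (ω : ℝ → ℝ) (hω : Continuous ω)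
    (heven : ∀ ξ, ω (-ξ) = ω ξ) (W : ℝ) :
    ∫ θ in (1 / 3 : ℝ)..1, (∫ ξ in (-W)..W, ω ξ * (aa p m ξ * bb q w (θ * ξ)))
      = 2 * ∫ ξ in (0 : ℝ)..W, ω ξ * (aa p m ξ * SS q w ξ) := by
  have hcont : Continuous (Function.uncurry fun (θ ξ : ℝ) =>
      ω ξ * (aa p m ξ * bb q w (θ * ξ))) := by
    have h1 := aa_continuous p m
    have h2 := bb_continuous q w
    unfold Function.uncurry
    fun_prop
  rw [intervalIntegral_intervalIntegral_swap]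
  · have e1 : ∀ ξ : ℝ, ∫ θ in (1 / 3 : ℝ)..1, ω ξ * (aa p m ξ * bb q w (θ * ξ))
        = ω ξ * (aa p m ξ * SS q w ξ) := by
      intro ξ
      rw [intervalIntegral.integral_const_mul, intervalIntegral.integral_const_mul]
      rfl
    simp_rw [e1]
    have hc : Continuous fun ξ => ω ξ * (aa p m ξ * SS q w ξ) :=
      hω.mul ((aa_continuous p m).mul (SS_continuous q w))
    have hSneg : ∀ ξ, SS q w (-ξ) = SS q w ξ := by
      intro ξ
      unfold SS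
      refine intervalIntegral.integral_congr fun θ _ => ?_
      simp only [mul_neg, bb_neg]
    rw [← intervalIntegral.integral_add_adjacent_intervals (b := 0) (hc.intervalIntegrable _ _)
      (hc.intervalIntegrable _ _)]
    have e2 : ∫ ξ in (-W)..0, ω ξ * (aa p m ξ * SS q w ξ)
        = ∫ ξ in (0 : ℝ)..W, ω ξ * (aa p m ξ * SS q w ξ) := by
      have := intervalIntegral.integral_comp_neg (a := 0) (b := W)
        (fun ξ => ω ξ * (aa p m ξ * SS q w ξ))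
      rw [neg_zero] at this
      rw [← this]
      refine intervalIntegral.integral_congr fun ξ _ => ?_
      simp only [heven, aa_neg, hSneg]
    rw [e2]; ring
  · refine (hcont.continuousOn.integrableOn_compact
      (K := Set.uIcc (1 / 3 : ℝ) 1 ×ˢ Set.uIcc (-W) W) ?_).mono_set ?_
    · exact isCompact_uIcc.prod isCompact_uIcc
    · exact Set.prod_mono Set.uIoc_subset_uIcc Set.uIoc_subset_uIcc

theorem EE_continuous (p q : ℕ → ℝ) (m w : ℕ) : Continuous (EE p q m w) := by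
  unfold EE
  refine continuous_const.mul
    (intervalIntegral.continuous_parametric_intervalIntegral_of_continuous' ?_ _ _)
  have h1 := aa_continuous p m
  have h2 := bb_continuous q w
  unfold Function.uncurry
  fun_prop

theorem TT_continuous (p q : ℕ → ℝ) (m w j L : ℕ) : Continuous (TT p q m w j L) := by
  unfold TT
  refine continuous_const.mul
    (intervalIntegral.continuous_parametric_intervalIntegral_of_continuous' ?_ _ _)
  have h1 := aa_continuous p m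
  have h2 := bb_continuous q w
  unfold Function.uncurry
  fun_prop

theorem EE_continuousOn (p q : ℕ → ℝ) (_hp : Par p) (_hq : Par q) (m w : ℕ) :
    ContinuousOn (EE p q m w) (Set.Icc (1 / 3) 1) := (EE_continuous p q m w).continuousOn

theorem TT_continuousOn (p q : ℕ → ℝ) (_hp : Par p) (_hq : Par q) (m w j L : ℕ) :
    ContinuousOn (TT p q m w j L) (Set.Icc (1 / 3) 1) := (TT_continuous p q m w j L).continuousOn

theorem EE_nonneg (p q : ℕ → ℝ) (hp : Par p) (hq : Par q) (m w : ℕ) (θ : ℝ) :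
    0 ≤ EE p q m w θ := by
  unfold EE
  refine mul_nonneg (by positivity) ?_
  exact intervalIntegral.integral_nonneg (by norm_num) fun ξ _ =>
    mul_nonneg (aa_nonneg p hp _ _) (bb_nonneg q hq _ _)

theorem TT_nonneg (p q : ℕ → ℝ) (hp : Par p) (hq : Par q) (m w j L : ℕ) (θ : ℝ) :
    0 ≤ TT p q m w j L θ := by
  unfold TT
  refine mul_nonneg (by positivity) ?_
  have hL : (0 : ℝ) ≤ L / 2 := by positivity
  exact intervalIntegral.integral_nonneg (by linarith) fun ξ _ =>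
    mul_nonneg (le_min zero_le_one (by positivity))
      (mul_nonneg (aa_nonneg p hp _ _) (bb_nonneg q hq _ _))

theorem geom_le (n : ℕ) : ∑ i ∈ range n, (0.993 : ℝ) ^ (i + 1) ≤ 142 := by
  have h : ∀ n : ℕ, ∑ i ∈ range n, (0.993 : ℝ) ^ (i + 1) ≤ 142 - 142 * 0.993 ^ n := by
    intro n
    induction n with
    | zero => simp
    | succ n ih =>
      rw [sum_range_succ, pow_succ]
      have : (0 : ℝ) < 0.993 ^ n := by positivity
      linarith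
  have := h n
  have h2 : (0 : ℝ) < 0.993 ^ n := by positivity
  linarith

theorem avg_EE_core (hA : AInt) (hB : BInt) : ∃ C : ℝ, 1 ≤ C ∧ ∀ (p q : ℕ → ℝ), Par p → Par q →
    ∀ m w : ℕ, 2 ^ m ≤ 3 ^ (w + 1) → ∫ θ in (1 / 3 : ℝ)..1, EE p q m w θ ≤ C := by
  refine ⟨5000, by norm_num, fun p q hp hq m w hmw => ?_⟩
  have h1 : ∫ θ in (1 / 3 : ℝ)..1, EE p q m w θ
      = 2 ^ m * (2 * ∫ ξ in (0 : ℝ)..(1 / 2), aa p m ξ * SS q w ξ) := by
    have := swap p q m w (fun _ => 1) continuous_const (fun _ => rfl) (1 / 2)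
    simp only [one_mul] at this
    rw [← this, ← intervalIntegral.integral_const_mul]
    rfl
  have hc : Continuous fun ξ => aa p m ξ * SS q w ξ :=
    (aa_continuous p m).mul (SS_continuous q w)
  have h2 : ∫ ξ in (0 : ℝ)..(1 / 2), aa p m ξ * SS q w ξ
      ≤ ∫ ξ in (0 : ℝ)..1, aa p m ξ * SS q w ξ := by
    refine intervalIntegral.integral_mono_interval le_rfl (by norm_num) (by norm_num) ?_ ?_
    · exact Filter.Eventually.of_forall fun ξ =>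
        mul_nonneg (aa_nonneg p hp _ _) (SS_nonneg q hq _ _)
    · exact hc.intervalIntegrable _ _
  have h3 := shells hA hB p q hp hq m w hmw (fun _ => 1) continuous_const (fun _ => 1)
    (fun _ => zero_le_one) (fun _ _ _ _ _ => le_rfl)
  simp only [one_mul] at h3
  have h4 := geom_le m
  have h5 : 2 ^ m * (∫ ξ in (0 : ℝ)..(1 / 2), aa p m ξ * SS q w ξ)
      ≤ 2 ^ m * ∫ ξ in (0 : ℝ)..1, aa p m ξ * SS q w ξ :=
    mul_le_mul_of_nonneg_left h2 (by positivity)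
  rw [h1]
  calc 2 ^ m * (2 * ∫ ξ in (0 : ℝ)..(1 / 2), aa p m ξ * SS q w ξ)
      = 2 * (2 ^ m * ∫ ξ in (0 : ℝ)..(1 / 2), aa p m ξ * SS q w ξ) := by ring
    _ ≤ 5000 := by linarith

/-- The weighted geometric sum. -/
theorem wsum (j m : ℕ) (hj : j ≤ m) :
    ∑ i ∈ range m, min 1 (4 * (2 : ℝ) ^ (i + 1) / 2 ^ j) * 0.993 ^ (i + 1)
      ≤ 151 * 0.993 ^ j := by
  have h2j : (0 : ℝ) < 2 ^ j := by positivity
  have hA : ∀ n : ℕ, ∑ i ∈ range n, min 1 (4 * (2 : ℝ) ^ (i + 1) / 2 ^ j) * 0.993 ^ (i + 1)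
      ≤ 9 * (1.986 ^ n / 2 ^ j) := by
    intro n
    induction n with
    | zero => simp
    | succ n ih =>
      rw [sum_range_succ]
      have h1 : min 1 (4 * (2 : ℝ) ^ (n + 1) / 2 ^ j) * 0.993 ^ (n + 1)
          ≤ 4 * (1.986 ^ (n + 1) / 2 ^ j) := by
        calc min 1 (4 * (2 : ℝ) ^ (n + 1) / 2 ^ j) * 0.993 ^ (n + 1)
            ≤ (4 * (2 : ℝ) ^ (n + 1) / 2 ^ j) * 0.993 ^ (n + 1) :=
              mul_le_mul_of_nonneg_right (min_le_right _ _) (by positivity)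
          _ = 4 * ((2 * 0.993) ^ (n + 1) / 2 ^ j) := by rw [mul_pow]; ring
          _ = _ := by norm_num
      have h2 : (1.986 : ℝ) ^ (n + 1) / 2 ^ j = 1.986 * (1.986 ^ n / 2 ^ j) := by
        rw [pow_succ]; ring
      have h3 : (0 : ℝ) < 1.986 ^ n / 2 ^ j := by positivity
      rw [h2] at h1 ⊢
      linarith
  have hB : ∀ n : ℕ, j ≤ n →
      ∑ i ∈ range n, min 1 (4 * (2 : ℝ) ^ (i + 1) / 2 ^ j) * 0.993 ^ (i + 1)
      ≤ 151 * 0.993 ^ j - 142 * 0.993 ^ n := by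
    intro n hn
    induction n, hn using Nat.le_induction with
    | base =>
      refine (hA j).trans (le_of_eq ?_)
      rw [← div_pow]
      norm_num
      ring
    | succ n _ ih =>
      rw [sum_range_succ]
      have h1 : min 1 (4 * (2 : ℝ) ^ (n + 1) / 2 ^ j) * 0.993 ^ (n + 1) ≤ 0.993 ^ (n + 1) :=
        mul_le_of_le_one_left (by positivity) (min_le_left _ _)
      have h2 : (0.993 : ℝ) ^ (n + 1) = 0.993 * 0.993 ^ n := by rw [pow_succ]; ring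
      have h3 : (0 : ℝ) < 0.993 ^ n := by positivity
      rw [h2] at h1 ⊢
      linarith
  have := hB m hj
  have h3 : (0 : ℝ) < 0.993 ^ m := by positivity
  linarith

theorem avg_TT_core (hA : AInt) (hB : BInt) : ∃ C : ℝ, 1 ≤ C ∧ ∀ (p q : ℕ → ℝ), Par p → Par q →
    ∀ m w j L : ℕ, 2 ^ m ≤ 3 ^ (w + 1) → j ≤ m → 1 ≤ L →
      ∫ θ in (1 / 3 : ℝ)..1, TT p q m w j L θ ≤ C * (0.993 ^ j + L * 0.993 ^ m) := by
  refine ⟨6000, by norm_num, fun p q hp hq m w j L hmw hj hL => ?_⟩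
  set ω : ℝ → ℝ := fun ξ => min 1 (4 * 2 ^ m / 2 ^ j * |ξ|) with hω
  have hωc : Continuous ω := by rw [hω]; fun_prop
  have hω0 : ∀ ξ, 0 ≤ ω ξ := fun ξ => le_min zero_le_one (by positivity)
  have hωe : ∀ ξ, ω (-ξ) = ω ξ := fun ξ => by simp only [hω, abs_neg]
  have h1 : ∫ θ in (1 / 3 : ℝ)..1, TT p q m w j L θ
      = 2 ^ m * (2 * ∫ ξ in (0 : ℝ)..(L / 2 : ℝ), ω ξ * (aa p m ξ * SS q w ξ)) := by
    have := swap p q m w ω hωc hωe (L / 2 : ℝ)
    rw [← this, ← intervalIntegral.integral_const_mul]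
    rfl
  have hc : Continuous fun ξ => ω ξ * (aa p m ξ * SS q w ξ) :=
    hωc.mul ((aa_continuous p m).mul (SS_continuous q w))
  have hL' : (1 : ℝ) ≤ L := by exact_mod_cast hL
  have h2 : ∫ ξ in (0 : ℝ)..(L / 2 : ℝ), ω ξ * (aa p m ξ * SS q w ξ)
      ≤ ∫ ξ in (0 : ℝ)..L, ω ξ * (aa p m ξ * SS q w ξ) := by
    refine intervalIntegral.integral_mono_interval le_rfl (by linarith) (by linarith) ?_ ?_
    · exact Filter.Eventually.of_forall fun ξ =>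
        mul_nonneg (hω0 ξ) (mul_nonneg (aa_nonneg p hp _ _) (SS_nonneg q hq _ _))
    · exact hc.intervalIntegrable _ _
  have h2' : ∫ ξ in (0 : ℝ)..L, ω ξ * (aa p m ξ * SS q w ξ)
      = (∫ ξ in (0 : ℝ)..1, ω ξ * (aa p m ξ * SS q w ξ))
        + ∫ ξ in (1 : ℝ)..L, ω ξ * (aa p m ξ * SS q w ξ) :=
    (intervalIntegral.integral_add_adjacent_intervals (hc.intervalIntegrable _ _)
      (hc.intervalIntegrable _ _)).symm
  have h3 := shells hA hB p q hp hq m w hmw ω hωc (fun i => min 1 (4 * (2 : ℝ) ^ i / 2 ^ j))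
    (fun i => le_min zero_le_one (by positivity)) (fun i _ ξ hξ0 hξ => by
      rw [hω]
      refine min_le_min le_rfl ?_
      rw [abs_of_nonneg hξ0]
      calc 4 * 2 ^ m / 2 ^ j * ξ ≤ 4 * 2 ^ m / 2 ^ j * (2 ^ i / 2 ^ m) :=
            mul_le_mul_of_nonneg_left hξ (by positivity)
        _ = 4 * 2 ^ i / 2 ^ j := by field_simp)
  have h4 := wsum j m hj
  have h5 := outer hA hB p q hp hq m w L hmw hL ω hωc (fun ξ => min_le_left _ _)
  have h6 : 2 ^ m * (∫ ξ in (0 : ℝ)..(L / 2 : ℝ), ω ξ * (aa p m ξ * SS q w ξ))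
      ≤ 2 ^ m * ∫ ξ in (0 : ℝ)..L, ω ξ * (aa p m ξ * SS q w ξ) :=
    mul_le_mul_of_nonneg_left h2 (by positivity)
  rw [h2', mul_add] at h6
  have h7 : min 1 (4 * (2 : ℝ) ^ 0 / 2 ^ j) ≤ 4 * 0.993 ^ j := by
    refine (min_le_right _ _).trans ?_
    rw [pow_zero, mul_one, div_eq_mul_inv, ← inv_pow]
    refine mul_le_mul_of_nonneg_left ?_ (by norm_num)
    exact pow_le_pow_left₀ (by norm_num) (by norm_num) j
  have h8 : (0 : ℝ) < 0.993 ^ j := by positivity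
  have h9 : (0 : ℝ) < L * 0.993 ^ m := by positivity
  rw [h1]
  calc 2 ^ m * (2 * ∫ ξ in (0 : ℝ)..(L / 2 : ℝ), ω ξ * (aa p m ξ * SS q w ξ))
      = 2 * (2 ^ m * ∫ ξ in (0 : ℝ)..(L / 2 : ℝ), ω ξ * (aa p m ξ * SS q w ξ)) := by ring
    _ ≤ 6000 * (0.993 ^ j + L * 0.993 ^ m) := by linarith

end Pool.Agent.Helper33.EX
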