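import Pool.Agent.Helper47.EX.Defs

/-!
Project EX: elementary facts about the Fourier products `aa`, `bb`.
-/

set_option autoImplicit false

namespace Pool.Agent.Helper33.EX

open Pool.Agent.Helper47.EX Finset MeasureTheory

theorem e_continuous : Continuous e := by
  unfold e
  fun_prop

theorem norm_e (ξ : ℝ) : ‖e ξ‖ = 1 := by
  unfold e
  exact Complex.norm_exp_ofReal_mul_I _

theorem e_add_nat (ξ : ℝ) (n : ℕ) : e (ξ + n) = e ξ := by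
  unfold e
  rw [show (((2 * Real.pi * (ξ + n) : ℝ)) : ℂ) * Complex.I
      = ((2 * Real.pi * ξ : ℝ) : ℂ) * Complex.I + (n : ℕ) * (2 * Real.pi * Complex.I) by
    push_cast; ring]
  rw [Complex.exp_add, Complex.exp_nat_mul_two_pi_mul_I, mul_one]

theorem e_neg (ξ : ℝ) : e (-ξ) = (starRingEnd ℂ) (e ξ) := by
  unfold e
  rw [← Complex.exp_conj]
  congr 1
  rw [map_mul, Complex.conj_ofReal, Complex.conj_I]
  push_cast
  ring

theorem phi2_nonneg (p ξ : ℝ) (hp : 1 ≤ p) : 0 ≤ phi2 p ξ := by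
  unfold phi2
  exact div_nonneg (norm_nonneg _) (by linarith)

theorem phi2_le_one (p ξ : ℝ) (hp : 1 ≤ p) : phi2 p ξ ≤ 1 := by
  unfold phi2
  rw [div_le_one (by linarith)]
  calc ‖(1 : ℂ) + (p : ℂ) * e ξ‖ ≤ ‖(1 : ℂ)‖ + ‖(p : ℂ) * e ξ‖ := norm_add_le _ _
    _ = 1 + p := by
      rw [norm_one, norm_mul, norm_e, mul_one, Complex.norm_real, Real.norm_eq_abs,
        abs_of_nonneg (by linarith)]

theorem phi2_neg (p ξ : ℝ) : phi2 p (-ξ) = phi2 p ξ := by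
  unfold phi2
  rw [e_neg]
  congr 1
  rw [← Complex.norm_conj ((1 : ℂ) + (p : ℂ) * e ξ)]
  congr 1
  simp

theorem phi2_add_nat (p ξ : ℝ) (n : ℕ) : phi2 p (ξ + n) = phi2 p ξ := by
  unfold phi2
  rw [e_add_nat]

theorem phi2_continuous (p : ℝ) : Continuous (phi2 p) := by
  unfold phi2
  have := e_continuous
  fun_prop

theorem phi3_den_pos (q : ℝ) (hq : 1 ≤ q) : 0 < 1 + q⁻¹ + q⁻¹ ^ 2 := by positivity

theorem phi3_nonneg (q ξ : ℝ) (hq : 1 ≤ q) : 0 ≤ phi3 q ξ := by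
  unfold phi3
  exact div_nonneg (norm_nonneg _) (phi3_den_pos q hq).le

theorem phi3_le_one (q ξ : ℝ) (hq : 1 ≤ q) : phi3 q ξ ≤ 1 := by
  unfold phi3
  rw [div_le_one (phi3_den_pos q hq)]
  have h0 : 0 ≤ q⁻¹ := by positivity
  have h1 : ‖((q⁻¹ : ℝ) : ℂ) * e ξ‖ = q⁻¹ := by
    rw [norm_mul, norm_e, mul_one, Complex.norm_real, Real.norm_eq_abs, abs_of_nonneg h0]
  calc ‖(1 : ℂ) + ((q⁻¹ : ℝ) : ℂ) * e ξ + (((q⁻¹ : ℝ) : ℂ) * e ξ) ^ 2‖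
      ≤ ‖(1 : ℂ) + ((q⁻¹ : ℝ) : ℂ) * e ξ‖ + ‖(((q⁻¹ : ℝ) : ℂ) * e ξ) ^ 2‖ := norm_add_le _ _
    _ ≤ (‖(1 : ℂ)‖ + ‖((q⁻¹ : ℝ) : ℂ) * e ξ‖) + ‖(((q⁻¹ : ℝ) : ℂ) * e ξ) ^ 2‖ := by
      gcongr
      exact norm_add_le _ _
    _ = 1 + q⁻¹ + q⁻¹ ^ 2 := by
      rw [norm_one, norm_pow, h1]

theorem phi3_neg (q ξ : ℝ) : phi3 q (-ξ) = phi3 q ξ := by
  unfold phi3
  rw [e_neg]
  congr 1
  rw [← Complex.norm_conj ((1 : ℂ) + ((q⁻¹ : ℝ) : ℂ) * e ξ + (((q⁻¹ : ℝ) : ℂ) * e ξ) ^ 2)]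
  congr 1
  simp

theorem phi3_add_nat (q ξ : ℝ) (n : ℕ) : phi3 q (ξ + n) = phi3 q ξ := by
  unfold phi3
  rw [e_add_nat]

theorem phi3_continuous (q : ℝ) : Continuous (phi3 q) := by
  unfold phi3
  have := e_continuous
  fun_prop

theorem aa_continuous (p : ℕ → ℝ) (m : ℕ) : Continuous (aa p m) := by
  unfold aa
  refine continuous_finsetProd _ fun k _ => ?_
  exact (phi2_continuous (p k)).comp (by fun_prop)

theorem bb_continuous (q : ℕ → ℝ) (w : ℕ) : Continuous (bb q w) := by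
  unfold bb
  refine continuous_finsetProd _ fun k _ => ?_
  exact (phi3_continuous (q k)).comp (by fun_prop)

theorem aa_nonneg (p : ℕ → ℝ) (hp : Par p) (m : ℕ) (ξ : ℝ) : 0 ≤ aa p m ξ :=
  prod_nonneg fun k _ => phi2_nonneg _ _ (hp k).1

theorem aa_le_one (p : ℕ → ℝ) (hp : Par p) (m : ℕ) (ξ : ℝ) : aa p m ξ ≤ 1 :=
  prod_le_one (fun k _ => phi2_nonneg _ _ (hp k).1) (fun k _ => phi2_le_one _ _ (hp k).1)

theorem bb_nonneg (q : ℕ → ℝ) (hq : Par q) (w : ℕ) (ξ : ℝ) : 0 ≤ bb q w ξ :=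
  prod_nonneg fun k _ => phi3_nonneg _ _ (hq k).1

theorem bb_le_one (q : ℕ → ℝ) (hq : Par q) (w : ℕ) (ξ : ℝ) : bb q w ξ ≤ 1 :=
  prod_le_one (fun k _ => phi3_nonneg _ _ (hq k).1) (fun k _ => phi3_le_one _ _ (hq k).1)

theorem aa_neg (p : ℕ → ℝ) (m : ℕ) (ξ : ℝ) : aa p m (-ξ) = aa p m ξ := by
  unfold aa
  refine prod_congr rfl fun k _ => ?_
  rw [mul_neg, phi2_neg]

theorem bb_neg (q : ℕ → ℝ) (w : ℕ) (ξ : ℝ) : bb q w (-ξ) = bb q w ξ := by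
  unfold bb
  refine prod_congr rfl fun k _ => ?_
  rw [mul_neg, phi3_neg]

theorem aa_add_one (p : ℕ → ℝ) (m : ℕ) (ξ : ℝ) : aa p m (ξ + 1) = aa p m ξ := by
  unfold aa
  refine prod_congr rfl fun k _ => ?_
  rw [mul_add, mul_one, show (2 : ℝ) ^ k = ((2 ^ k : ℕ) : ℝ) by push_cast; ring, phi2_add_nat]

theorem bb_add_one (q : ℕ → ℝ) (w : ℕ) (ξ : ℝ) : bb q w (ξ + 1) = bb q w ξ := by
  unfold bb
  refine prod_congr rfl fun k _ => ?_
  rw [mul_add, mul_one, show (3 : ℝ) ^ k = ((3 ^ k : ℕ) : ℝ) by push_cast; ring, phi3_add_nat]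

theorem aa_split (p : ℕ → ℝ) (a i : ℕ) (ξ : ℝ) :
    aa p (a + i) ξ = aa p a ξ * aa (fun k => p (a + k)) i (2 ^ a * ξ) := by
  unfold aa
  rw [prod_range_add]
  congr 1
  refine prod_congr rfl fun k _ => ?_
  congr 1
  ring

theorem bb_split (q : ℕ → ℝ) (a i : ℕ) (ξ : ℝ) :
    bb q (a + i) ξ = bb q a ξ * bb (fun k => q (a + k)) i (3 ^ a * ξ) := by
  unfold bb
  rw [prod_range_add]
  congr 1
  refine prod_congr rfl fun k _ => ?_
  congr 1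
  ring

theorem Par_shift (p : ℕ → ℝ) (hp : Par p) (a : ℕ) : Par (fun k => p (a + k)) :=
  fun k => hp (a + k)

theorem aa_le_tail (p : ℕ → ℝ) (hp : Par p) (a i : ℕ) (ξ : ℝ) :
    aa p (a + i) ξ ≤ aa (fun k => p (a + k)) i (2 ^ a * ξ) := by
  rw [aa_split]
  exact mul_le_of_le_one_left (aa_nonneg _ (Par_shift p hp a) _ _) (aa_le_one p hp _ _)

theorem bb_le_tail (q : ℕ → ℝ) (hq : Par q) (a i : ℕ) (ξ : ℝ) :
    bb q (a + i) ξ ≤ bb (fun k => q (a + k)) i (3 ^ a * ξ) := by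
  rw [bb_split]
  exact mul_le_of_le_one_left (bb_nonneg _ (Par_shift q hq a) _ _) (bb_le_one q hq _ _)

/-- Integral of a continuous function with period one over `[0, n]`. -/
theorem int_zero_nat (f : ℝ → ℝ) (hf : Continuous f) (hper : ∀ t, f (t + 1) = f t) (n : ℕ) :
    ∫ x in (0 : ℝ)..n, f x = n * ∫ x in (0 : ℝ)..1, f x := by
  have hp : Function.Periodic f 1 := hper
  have := hp.intervalIntegral_add_zsmul_eq (n : ℤ) 0 (fun a b => hf.intervalIntegrable a b)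
  simpa using this

end Pool.Agent.Helper33.EX
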